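import Mathlib
import Pool.Agent.N816.Lin.D
import Pool.Agent.N816.Lin.E

/-!
# MP_4834b2_nt: linearized trinomials with maximum kernel for `n = d² - 1`

For every `d ≥ 3` and every finite field `k` with `q` elements, `K/k` of degree `n = d² - 1` and `σ`
a generator of the Galois group, all the pairs `(a, b)` for which `a x + b σ(x) - σ^d(x)` has a
kernel of dimension `d` over `k` are determined.
-/

set_option autoImplicit false

namespace Pool.Agent.Results.MP_4834b2_nt.MaxKernelTrinomials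

open Finset Pool.Agent.N816.Lin

/-- The trinomial `L(x) = a x + b σ(x) - σ^d(x)` as a `k`-linear map from `K` to `K`. -/
noncomputable def trinomial (k K : Type*) [Field k] [Field K] [Algebra k K] (σ : K ≃ₐ[k] K)
    (d : ℕ) (a b : K) : K →ₗ[k] K :=
  LinearMap.mulLeft k a + (LinearMap.mulLeft k b).comp σ.toLinearMap - (σ ^ d).toLinearMap

/-- **Theorem.** Let `k` be a finite field with `q` elements of characteristic `p`, let `d ≥ 3`, let
`K/k` be a field extension of degree `n = d² - 1`, and let `σ` be a generator of the group of the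
`k`-automorphisms of `K`. For `a b : K`, the kernel of `L(x) = a x + b σ(x) - σ^d(x)` has
dimension `d` over `k` if and only if the norm of `a` is `(-1)^(d-1)` and, with
`P = b * ∏_{j=1}^{d-1} σ^(j d) (a)`,

* either `d` is a power of `p` and `P = -1`,
* or `d` is a prime different from `p`, the order of `q` modulo `d` is `d - 1`, and `P = -β`
  for some `β ∈ K` with `β^d = 1` and `β ≠ 1`. -/
theorem result (k K : Type*) [Field k] [Fintype k] [Field K] [Algebra k K] (d : ℕ) (hd : 3 ≤ d)
    (hn : Module.finrank k K = d ^ 2 - 1) (σ : K ≃ₐ[k] K)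
    (hσ : ∀ g : K ≃ₐ[k] K, g ∈ Subgroup.zpowers σ) (a b : K) :
    Module.finrank k (LinearMap.ker (trinomial k K σ d a b)) = d ↔
      Algebra.norm k a = (-1) ^ (d - 1) ∧
      (((∃ e : ℕ, d = ringChar k ^ e) ∧
          b * ∏ j ∈ Finset.Icc 1 (d - 1), (σ ^ (j * d)) a = -1) ∨
        ((d.Prime ∧ d ≠ ringChar k ∧ orderOf ((Fintype.card k : ℕ) : ZMod d) = d - 1) ∧
          ∃ β : K, β ^ d = 1 ∧ β ≠ 1 ∧
            b * ∏ j ∈ Finset.Icc 1 (d - 1), (σ ^ (j * d)) a = -β)) := by
  have hd2 : 1 < d ^ 2 := Nat.one_lt_pow (by omega) (by omega)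
  have hpos : 0 < Module.finrank k K := by rw [hn]; omega
  have hfd : FiniteDimensional k K := Module.finite_of_finrank_pos hpos
  have hK : Finite K := Module.finite_of_finite k
  have hgal : IsGalois k K := inferInstance
  set τ : K ≃ₐ[k] K := σ ^ d with hτdef
  have hστ : τ ^ d = σ := by
    rw [hτdef, ← pow_mul]
    have : d * d = Module.finrank k K + 1 := by
      rw [hn, ← pow_two]; omega
    rw [this, pow_succ, pow_finrank, one_mul]
  have hτ : ∀ g : K ≃ₐ[k] K, g ∈ Subgroup.zpowers τ := by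
    intro g
    have h1 : σ ∈ Subgroup.zpowers τ := by
      rw [← hστ]; exact Subgroup.pow_mem _ (Subgroup.mem_zpowers τ) d
    exact (Subgroup.zpowers_le.2 h1) (hσ g)
  have hker : LinearMap.ker (trinomial k K σ d a b) = U τ d a b := by
    ext x
    rw [LinearMap.mem_ker, mem_U, hστ, trinomial]
    simp only [LinearMap.sub_apply, LinearMap.add_apply, LinearMap.mulLeft_apply,
      LinearMap.comp_apply, AlgEquiv.toLinearMap_apply]
    rw [sub_eq_zero, hτdef]
    exact eq_comm
  have hprod : ∏ j ∈ Finset.Icc 1 (d - 1), (σ ^ (j * d)) a =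
      ∏ j ∈ Finset.Icc 1 (d - 1), (τ ^ j) a := by
    apply prod_congr rfl
    intro j _
    rw [hτdef, ← pow_mul, mul_comm]
  rw [hker, hprod]
  have hbet : b * ∏ j ∈ Finset.Icc 1 (d - 1), (τ ^ j) a = - bet τ d a b := by
    rw [bet, neg_neg]
  rw [hbet]
  constructor
  · intro h
    obtain ⟨h1, -, h3, h4⟩ := forward hτ hd hn h
    refine ⟨h1, ?_⟩
    rcases cls_forward hd h3 h4 with ⟨h5, h6⟩ | ⟨h5, h6, h7⟩
    · left; exact ⟨h5, by rw [h6]⟩
    · right; exact ⟨h5, _, h6, h7, rfl⟩
  · rintro ⟨h1, h2⟩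
    have h3 : ((∃ e, d = ringChar k ^ e) ∧ bet τ d a b = 1) ∨
        ((d.Prime ∧ d ≠ ringChar k ∧ orderOf ((Fintype.card k : ℕ) : ZMod d) = d - 1) ∧
        (bet τ d a b) ^ d = 1 ∧ bet τ d a b ≠ 1) := by
      rcases h2 with ⟨h4, h5⟩ | ⟨h4, β, h5, h6, h7⟩
      · left; exact ⟨h4, neg_injective h5⟩
      · right
        rw [neg_injective h7]
        exact ⟨h4, h5, h6⟩
    obtain ⟨h4, h5, h6⟩ := cls_backward hτ hd h3
    exact backward hτ hd hn h1 h4 h5 h6

end Pool.Agent.Results.MP_4834b2_nt.MaxKernelTrinomials
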